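import Pool.Agent.helper66.SL.SpecC

set_option autoImplicit false

namespace Pool.Agent.helper66.SL

open Pool.Agent.helper52.FC

theorem NUM_sum {E : Type} [Fintype E] (g : E → ℕ) (c : ℕ) (h : ∀ e, c ≤ g e) :
    Fintype.card E * c ≤ ∑ e, g e := by
  have := Finset.sum_le_sum (s := Finset.univ) (fun e _ => h e)
  rw [Finset.sum_const, Finset.card_univ, smul_eq_mul] at this
  exact this

theorem NUM_eq {E : Type} [Fintype E] (g : E → ℕ) (c : ℕ) (h : ∀ e, c ≤ g e)
    (hs : ∑ e, g e = Fintype.card E * c) : ∀ e, g e = c := by
  have h1 : ∑ e : E, c = ∑ e, g e := by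
    rw [hs, Finset.sum_const, Finset.card_univ, smul_eq_mul]
  have h2 := (Finset.sum_eq_sum_iff_of_le (s := Finset.univ) (fun e _ => h e)).mp h1
  intro e
  exact (h2 e (Finset.mem_univ e)).symm

theorem NUM_proof : NUM := by
  intro E _ A B D t f V2 V3 hn h1 h2 h3 hAB hA hB hV3 sA sB sD hD
  have hV2 : V2 = 6 := by omega
  subst hV2
  have hsum : Fintype.card E * (2 * (Fintype.card E - 1)) = 12 + 6 * V3 := by
    have e1 : ∑ e : E, (2 * (Fintype.card E - 1)) = ∑ e, (A e + 2 * B e) :=
      Finset.sum_congr rfl (fun e _ => hAB e)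
    rw [Finset.sum_const, Finset.card_univ, smul_eq_mul, Finset.sum_add_distrib,
      ← Finset.mul_sum, sA, sB] at e1
    omega
  obtain ⟨v, hv⟩ := hV3
  rcases Nat.even_or_odd (Fintype.card E) with he | he
  · obtain ⟨c, hc⟩ := he
    have hA2 : ∀ e, 2 ≤ A e := by
      intro e
      obtain ⟨k, hk⟩ := hB e
      obtain ⟨j, hj⟩ := hA e
      have := hAB e
      omega
    have hle := NUM_sum A 2 hA2
    rw [sA] at hle
    have hc3 : c = 2 ∨ c = 3 := by omega
    rcases hc3 with hc3 | hc3
    · have h4 : Fintype.card E = 4 := by omega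
      right; left
      refine ⟨h4, ?_⟩
      intro e
      obtain ⟨k, hk⟩ := hB e
      have := hAB e
      have := hA2 e
      rw [h4] at *
      omega
    · have h6 : Fintype.card E = 6 := by omega
      right; right; left
      refine ⟨h6, ?_⟩
      intro e
      have e2 := NUM_eq A 2 hA2 (by rw [sA, h6]) e
      have := hAB e
      rw [h6] at this
      omega
  · obtain ⟨c, hc⟩ := he
    have hA4 : ∀ e, 4 ≤ A e + 4 * (if A e = 0 then 1 else 0) := by
      intro e
      obtain ⟨k, hk⟩ := hB e
      have := hAB e
      split_ifs with h0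
      · omega
      · omega
    have hD3 : ∀ e, 3 * (if A e = 0 then 1 else 0) ≤ D e := by
      intro e
      split_ifs with h0
      · have := hD e h0
        omega
      · omega
    have hz : 3 * ∑ e, (if A e = 0 then 1 else 0) ≤ 12 := by
      have := Finset.sum_le_sum (s := Finset.univ) (fun e _ => hD3 e)
      rw [← Finset.mul_sum, sD] at this
      exact this
    have hle := NUM_sum (fun e => A e + 4 * (if A e = 0 then 1 else 0)) 4 hA4
    have hs2 : ∑ e, (A e + 4 * (if A e = 0 then 1 else 0)) =
        12 + 4 * ∑ e, (if A e = 0 then 1 else 0) := by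
      rw [Finset.sum_add_distrib, ← Finset.mul_sum, sA]
    rw [hs2] at hle
    have hc3 : c = 1 ∨ c = 2 ∨ c = 3 := by omega
    rcases hc3 with hc3 | hc3 | hc3
    · have h4 : Fintype.card E = 3 := by omega
      left
      refine ⟨h4, ?_⟩
      rw [h4] at hsum
      have hV30 : V3 = 0 := by omega
      rw [hV30, mul_zero] at sB
      intro e
      have hB0 : B e = 0 := by
        have := (Finset.sum_eq_zero_iff.mp sB) e (Finset.mem_univ e)
        exact this
      have := hAB e
      rw [h4] at this
      omega
    · have h5 : Fintype.card E = 5 := by omega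
      rw [h5] at hsum
      omega
    · have h7 : Fintype.card E = 7 := by omega
      right; right; right
      refine ⟨h7, ?_⟩
      intro e
      have e2 := NUM_eq (fun e => A e + 4 * (if A e = 0 then 1 else 0)) 4 hA4
        (by rw [hs2, h7]; omega) e
      have := hAB e
      rw [h7] at this
      split_ifs at e2 with h0
      · left
        omega
      · right
        omega

end Pool.Agent.helper66.SL
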