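import Pool.Agent.helper66.SL.SpecK

set_option autoImplicit false

namespace Pool.Agent.helper66.SL

open Pool.Agent.helper52.FC

theorem KF2_mem {E : Type} {L : Set (E → SignType)} {r : ℕ} {P : Set (EuclideanSpace ℝ (Fin r))}
    (φ : topeGraph L ≃g skeleton P) {T : E → SignType} (h : IsTope L T) : vp φ T ∈ P := by
  unfold vp
  rw [dif_pos h]
  exact (φ ⟨T, h⟩).2.1

theorem KF2_span (hKTC : KTC) {E : Type} [Fintype E] {L : Set (E → SignType)} {r : ℕ}
    {P : Set (EuclideanSpace ℝ (Fin r))} (φ : topeGraph L ≃g skeleton P) (hK : KS L r P)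
    {T : E → SignType} (hT : IsTope L T) {F : Set (EuclideanSpace ℝ (Fin r))} (hF : F ∈ Fc P)
    (hTF : vp φ T ∈ F) {x : EuclideanSpace ℝ (Fin r)} (hx : x ∈ F) :
    ∃ c : E → ℝ, (∀ e, ¬ (Wall L T e ∧ vp φ (fl T e) ∈ F) → c e = 0) ∧
      x - vp φ T = ∑ e, c e • (vp φ (fl T e) - vp φ T) := by
  obtain ⟨hexp, hne⟩ := hF
  obtain ⟨l, hl⟩ := hexp hne
  rw [hl] at hx hTF
  obtain ⟨c, hc0, hcw, hc⟩ := hKTC E L r P φ hK T hT x hx.1
  refine ⟨c, ?_, hc⟩
  have hlx : l (x - vp φ T) = 0 := by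
    rw [map_sub]
    have h1 := hx.2 _ hTF.1
    have h2 := hTF.2 _ hx.1
    linarith
  have hneg : ∀ e ∈ Finset.univ, c e * l (vp φ (fl T e) - vp φ T) ≤ 0 := by
    intro e _
    by_cases hw : Wall L T e
    · have h1 : l (vp φ (fl T e) - vp φ T) ≤ 0 := by
        rw [map_sub]
        have := hTF.2 _ (KF2_mem φ (show IsTope L (fl T e) from hw))
        linarith
      exact mul_nonpos_of_nonneg_of_nonpos (hc0 e) h1
    · rw [hcw e hw, zero_mul]
  have hsum : ∑ e, c e * l (vp φ (fl T e) - vp φ T) = 0 := by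
    rw [hc, map_sum] at hlx
    rw [← hlx]
    refine Finset.sum_congr rfl fun e _ => ?_
    rw [map_smul, smul_eq_mul]
  have hz := (Finset.sum_eq_zero_iff_of_nonpos hneg).mp hsum
  intro e he
  by_cases hw : Wall L T e
  · have h1 := hz e (Finset.mem_univ e)
    rcases mul_eq_zero.mp h1 with h2 | h2
    · exact h2
    · exfalso
      apply he
      refine ⟨hw, ?_⟩
      have hm : vp φ (fl T e) ∈ P := KF2_mem φ (show IsTope L (fl T e) from hw)
      rw [hl]
      refine ⟨hm, fun y hy => ?_⟩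
      rw [map_sub] at h2
      have := hTF.2 y hy
      linarith
  · exact hcw e hw

theorem KF2_proof (hKTC : KTC) : KF2 := by
  intro E _ L r P φ hK T hT F hF F' hF' hTF hTF' hw x hx
  obtain ⟨c, hc0, hc⟩ := KF2_span hKTC φ hK hT hF hTF hx
  obtain ⟨hexp, hne⟩ := hF'
  obtain ⟨l, hl⟩ := hexp hne
  have hxP : x ∈ P := hF.1.subset hx
  have hlz : l (x - vp φ T) = 0 := by
    rw [hc, map_sum]
    apply Finset.sum_eq_zero
    intro e _
    rw [map_smul, smul_eq_mul]
    by_cases he : Wall L T e ∧ vp φ (fl T e) ∈ F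
    · have h1 := hw e he.1 he.2
      rw [hl] at h1 hTF'
      rw [map_sub]
      have h2 := h1.2 _ hTF'.1
      have h3 := hTF'.2 _ h1.1
      have h4 : l (vp φ (fl T e)) - l (vp φ T) = 0 := by linarith
      rw [h4, mul_zero]
    · rw [hc0 e he, zero_mul]
  rw [hl] at hTF' ⊢
  refine ⟨hxP, fun y hy => ?_⟩
  rw [map_sub] at hlz
  have := hTF'.2 y hy
  linarith

end Pool.Agent.helper66.SL
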