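import Pool.Agent.helper8.SL.KF2

set_option autoImplicit false

namespace Pool.Agent.helper66.SL

open Pool.Agent.helper52.FC

theorem KF4_rank (hKTC : KTC) (hKIN : KIN) {E : Type} [Fintype E] {L : Set (E → SignType)} {r : ℕ}
    {P : Set (EuclideanSpace ℝ (Fin r))} (φ : topeGraph L ≃g skeleton P) (hK : KS L r P)
    {T : E → SignType} (hT : IsTope L T) {F : Set (EuclideanSpace ℝ (Fin r))} (hF : F ∈ Fc P)
    (hTF : vp φ T ∈ F) :
    {e | Wall L T e ∧ vp φ (fl T e) ∈ F}.ncard =
      Module.finrank ℝ (Submodule.span ℝ {z | ∃ x ∈ F, ∃ y ∈ F, z = x - y}) := by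
  classical
  set W : Set E := {e | Wall L T e ∧ vp φ (fl T e) ∈ F} with hW
  set d : W → EuclideanSpace ℝ (Fin r) := fun e => vp φ (fl T e.1) - vp φ T with hd
  have hli : LinearIndependent ℝ d := by
    rw [Fintype.linearIndependent_iff]
    intro g hg i
    obtain ⟨l, hl⟩ := hKIN E L r P φ hK T hT (fun e => if e = i.1 then 1 else 0)
    have h1 := congrArg l hg
    rw [map_sum, map_zero] at h1
    have h2 : ∀ j : W, l (g j • d j) = g j * (if j = i then 1 else 0) := by
      intro j
      rw [map_smul, smul_eq_mul]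
      have h3 := hl j.1 j.2.1
      rw [show l (d j) = if j.1 = i.1 then 1 else 0 from h3]
      by_cases hji : j = i
      · rw [hji]; simp
      · have : j.1 ≠ i.1 := fun h => hji (Subtype.ext h)
        rw [if_neg this, if_neg hji]
    rw [Finset.sum_congr rfl (fun j _ => h2 j)] at h1
    simpa using h1
  have hspan : Submodule.span ℝ (Set.range d) =
      Submodule.span ℝ {z | ∃ x ∈ F, ∃ y ∈ F, z = x - y} := by
    apply le_antisymm
    · rw [Submodule.span_le]
      rintro z ⟨e, rfl⟩
      exact Submodule.subset_span ⟨_, e.2.2, _, hTF, rfl⟩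
    · rw [Submodule.span_le]
      rintro z ⟨x, hx, y, hy, rfl⟩
      have key : ∀ u ∈ F, u - vp φ T ∈ Submodule.span ℝ (Set.range d) := by
        intro u hu
        obtain ⟨c, hc0, hc⟩ := KF2_span hKTC φ hK hT hF hTF hu
        rw [hc]
        apply Submodule.sum_mem
        intro e _
        by_cases he : Wall L T e ∧ vp φ (fl T e) ∈ F
        · exact Submodule.smul_mem _ _ (Submodule.subset_span ⟨⟨e, he⟩, rfl⟩)
        · rw [hc0 e he, zero_smul]
          exact Submodule.zero_mem _
      have h1 := Submodule.sub_mem _ (key x hx) (key y hy)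
      have h2 : x - vp φ T - (y - vp φ T) = x - y := by abel
      rw [h2] at h1
      exact h1
  rw [← hspan, finrank_span_eq_card hli, ← Nat.card_eq_fintype_card, Nat.card_coe_set_eq]

theorem KF4_proof (hKTC : KTC) (hKIN : KIN) : KF4 := by
  intro E _ L r P φ hK F hF T T' hT hT' hTF hTF'
  rw [KF4_rank hKTC hKIN φ hK hT hF hTF, KF4_rank hKTC hKIN φ hK hT' hF hTF']

end Pool.Agent.helper66.SL
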